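import Pool.Agent.Results.MP_4aec10_nt.SplitFamilies
import Pool.Agent.N375.AV.F

/-!
# The relative semi-abelian conjecture at points whose heights are near the values of additive functions

Let `Ω_1, …, Ω_q` be lattices, pairwise without homomorphisms, `t_1, …, t_s` and `p_1, …, p_n` analytic functions on a connected
open set `U` of `ℂ`, `p_i(z)` outside its lattice `Ω_(ty i)`, such that no nontrivial integral combination of the `t_l` is
constant, and for each `c` no nontrivial combination of the `p_i` of type `c` with coefficients in the multipliers of `Ω_c`. At a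
point `x` of a number field `K` they give the point `R(x) = exp_G (t(x), p(x))` of `G = 𝔾ₘ^s × ∏ E_(ty i)`, and the conjecture of
the problem predicts `s + 2 n` algebraically independent numbers over the field generated by the periods among `t_l`, `exp(t_l)`,
`p_i`, `℘(p_i)`, `ζ(p_i)` at `x`, if `t(x)`, `p(x)` are independent modulo periods.

Let `F = f_1 ∘ ⋯ ∘ f_k` be a composition of functions dominated by the largest prime factor: for example additive functions `f`
with `f (q^j) ≤ C q^j` at the prime powers, with different values at different large primes (the sum of the prime factors),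
the largest prime factor itself, and Kempner's function. Let `α > 0`, `d ≥ 1` and `κ < 1`. For all number fields `K`, for all
`m ≤ N` but `K' N exp (- c (log N)^(1 / (k + 1)))`, ALL `x` in `K` whose height `T` satisfies `|T - α F(m)^d| ≤ F(m)^κ` are good:
fixed `s + 2 n` of the numbers at `x` satisfy no relation of degree `≤ ω(T) → ∞` and height at most `T^(ω(T))`, with arbitrary
constants (for instance monomials in the periods) in the coefficients. The values of `F` are taken with very large
multiplicities and `F(m)` is in general much smaller than `m`, of the size of a power of `m` with an exponent which has a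
distribution function.

Proof. The number of the exceptional points of height at most `T` is at most `T^(1 / ω(T))`, by `MP_4aec10_nt.SplitFamilies`. The
tool `Pool.Agent.N375.AV` bounds the preimages of such sets under `F`.
-/

set_option autoImplicit false

open Filter NumberField Topology
open scoped PeriodPair

namespace Pool.Agent.Results.MP_4b482e_nt.AdditiveValues

open Pool.Agent.N733.TG (Expanding expanding_pow)
open Pool.Agent.N375.AV (PD comp windows_unif pd_additive pd_largest pd_kempner)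
open Pool.Agent.Results.MP_4aec10_nt
open Pool.Agent.Results.MP_4aec10_nt.SplitFamilies (Name Height ζ)

/-- The values of the functions `t_l`, `exp(t_l)`, `p_i`, `℘(p_i)`, `ζ(p_i)` at the point `z`, with the functions `℘`, `ζ`
of the lattice `Ω (ty i)`. -/
noncomputable def value {q s n : ℕ} (Ω : Fin q → PeriodPair) (ty : Fin n → Fin q) (t : Fin s → ℂ → ℂ) (p : Fin n → ℂ → ℂ)
    (z : ℂ) : Name s n → ℂ
  | Name.t l => t l z
  | Name.expt l => Complex.exp (t l z)
  | Name.p i => p i z
  | Name.wp i => ℘[Ω (ty i)] (p i z)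
  | Name.zeta i => ζ (Ω (ty i)) (p i z)

/-- Analytic functions `t_1, …, t_s` and `p_1, …, p_n` of one variable, the `p_i` with values outside one of the
lattices `Ω c`, its type; the lattices `Ω c` have pairwise no homomorphisms. No nontrivial combination with integral
coefficients of the `t_l`, and for each `c` no nontrivial combination of the `p_i` of type `c` with coefficients in the
ring of the endomorphisms of `ℂ / Ω c`, is constant. -/
structure Family {q s n : ℕ} (U : Set ℂ) (Ω : Fin q → PeriodPair) (ty : Fin n → Fin q)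
    (t : Fin s → ℂ → ℂ) (p : Fin n → ℂ → ℂ) : Prop where
  isOpen : IsOpen U
  isPreconnected : IsPreconnected U
  nonempty : U.Nonempty
  noHom : ∀ c c', c ≠ c' → ∀ α : ℂ, (∀ w ∈ (Ω c).lattice, α * w ∈ (Ω c').lattice) → α = 0
  analytic_t : ∀ l, AnalyticOnNhd ℂ (t l) U
  analytic_p : ∀ i, AnalyticOnNhd ℂ (p i) U
  notMem : ∀ i, ∀ z ∈ U, p i z ∉ (Ω (ty i)).lattice
  independent_t : ∀ (m : Fin s → ℤ) (b : ℂ), (∀ z ∈ U, ∑ l, (m l : ℂ) * t l z = b) → m = 0
  independent_p : ∀ (c : Fin q) (u : Fin n → ℂ) (b : ℂ), (∀ i, ∀ w ∈ (Ω c).lattice, u i * w ∈ (Ω c).lattice) →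
    (∀ i, ty i ≠ c → u i = 0) → (∀ z ∈ U, ∑ i, u i * p i z = b) → u = 0

/-- The height of `x`: the smallest `T` such that `x` is a quotient of two integers of `K` all of whose conjugates are at most
`T` in absolute value. -/
noncomputable def height (K : Type) [Field K] [NumberField K] (x : K) : ℝ := sInf {T : ℝ | Height K T x}

/-- No nonzero polynomial of partial degrees at most `k`, whose coefficients are combinations `∑_{i < k} ξ_i c_i` with integers
`c_i` of `K` all of whose conjugates are at most `T ^ k`, vanishes at the numbers `y`. -/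
def NoRelation (K : Type) [Field K] [NumberField K] (io : K →+* ℂ) (ξ : ℕ → ℂ) (k : ℕ) (T : ℝ) {σ : Type} (y : σ → ℂ) : Prop :=
  ∀ R : MvPolynomial σ ℂ, R ≠ 0 → (∀ a, R.degreeOf a ≤ k) →
    (∀ m, ∃ c : Fin k → 𝓞 K, (∀ i (φ : K →+* ℂ), ‖φ (c i : K)‖ ≤ T ^ k) ∧ R.coeff m = ∑ i : Fin k, ξ i * io (c i : K)) →
    MvPolynomial.eval y R ≠ 0

/-- The point `x` of `K` is good for `k` and `T`: if the degree of `K` is at most `k`, `|x| ≤ k`, and the disc of radius `1 / k`
around `x` is contained in `U`, then the `s + 2 n` numbers with the names `e` at `x` satisfy no relation for `k` and `T`. -/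
def Good {q s n : ℕ} (U : Set ℂ) (Ω : Fin q → PeriodPair) (ty : Fin n → Fin q) (t : Fin s → ℂ → ℂ) (p : Fin n → ℂ → ℂ)
    (e : Fin (s + n) ⊕ Fin n → Name s n) (K : Type) [Field K] [NumberField K] (io : K →+* ℂ) (ξ : ℕ → ℂ) (k : ℕ) (T : ℝ)
    (x : K) : Prop :=
  Module.finrank ℚ K ≤ k → ‖io x‖ ≤ k → Metric.ball (io x) (k : ℝ)⁻¹ ⊆ U →
    NoRelation K io ξ k T fun a => value Ω ty t p (io x) (e a)

/-- the one-parameter family as a family of `SplitFamilies` -/
theorem Family.lift {q s n : ℕ} {U : Set ℂ} {Ω : Fin q → PeriodPair} {ty : Fin n → Fin q} {t : Fin s → ℂ → ℂ}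
    {p : Fin n → ℂ → ℂ} (h : Family U Ω ty t p) :
    SplitFamilies.Family (X := Unit) {z | z () ∈ U} Ω ty (fun l z => t l (z ())) (fun i z => p i (z ())) := by
  have hc : Continuous fun z : Unit → ℂ => z () := continuous_apply ()
  have hp : ∀ z : Unit → ℂ, AnalyticAt ℂ (fun z : Unit → ℂ => z ()) z := fun z =>
    (ContinuousLinearMap.proj (R := ℂ) (φ := fun _ : Unit => ℂ) ()).analyticAt z
  refine ⟨h.isOpen.preimage hc, ?_, ?_, h.noHom, ?_, ?_, ?_, ?_, ?_⟩
  · have h1 : {z : Unit → ℂ | z () ∈ U} = (fun (t : ℂ) (_ : Unit) => t) '' U := by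
      ext z
      constructor
      · intro hz
        exact ⟨z (), hz, funext fun _ => rfl⟩
      · rintro ⟨t, ht, rfl⟩
        exact ht
    rw [h1]
    exact h.isPreconnected.image _ (by fun_prop)
  · obtain ⟨t, ht⟩ := h.nonempty
    exact ⟨fun _ => t, ht⟩
  · intro l z hz
    exact AnalyticAt.fun_comp (h.analytic_t l _ hz) (hp z)
  · intro i z hz
    exact AnalyticAt.fun_comp (h.analytic_p i _ hz) (hp z)
  · intro i z hz
    exact h.notMem i _ hz
  · intro m b hm
    exact h.independent_t m b fun z hz => hm (fun _ => z) hz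
  · intro c u b hu1 hu2 hm
    exact h.independent_p c u b hu1 hu2 fun z hz => hm (fun _ => z) hz

theorem height_mono {K : Type} [Field K] [NumberField K] {T T' : ℝ} (h : T ≤ T') {x : K} (hx : Height K T x) : Height K T' x := by
  obtain ⟨a, b, hb, h1, h2, h3⟩ := hx
  exact ⟨a, b, hb, h1.trans h, h2.trans h, h3⟩

theorem height_nonempty (K : Type) [Field K] [NumberField K] (x : K) : {T : ℝ | Height K T x}.Nonempty := by
  obtain ⟨a, b, hb, hab⟩ := IsFractionRing.div_surjective (A := 𝓞 K) x
  refine ⟨max (house (a : K)) (house (b : K)), a, b, nonZeroDivisors.ne_zero hb, le_max_left _ _, le_max_right _ _, ?_⟩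
  exact hab.symm

theorem house_nonneg' {K : Type} [Field K] [NumberField K] (x : K) : 0 ≤ house x := by
  unfold house
  positivity

theorem height_bdd (K : Type) [Field K] [NumberField K] (x : K) : BddBelow {T : ℝ | Height K T x} := by
  refine ⟨0, ?_⟩
  rintro T ⟨a, b, hb, h1, h2, h3⟩
  exact (house_nonneg' _).trans h1

theorem height_nonneg (K : Type) [Field K] [NumberField K] (x : K) : 0 ≤ height K x := by
  apply le_csInf (height_nonempty K x)
  rintro T ⟨a, b, hb, h1, h2, h3⟩
  exact (house_nonneg' _).trans h1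

theorem height_lt {K : Type} [Field K] [NumberField K] {x : K} {T : ℝ} (h : height K x < T) : Height K T x := by
  obtain ⟨T', h1, h2⟩ := exists_lt_of_csInf_lt (height_nonempty K x) h
  exact height_mono h2.le h1

/-- A relation stays a relation for larger `k` and `T`. -/
theorem NoRelation.anti {K : Type} [Field K] [NumberField K] {io : K →+* ℂ} {ξ : ℕ → ℂ} {k k' : ℕ} {T T' : ℝ} (hk : k ≤ k')
    (hT : 1 ≤ T) (hTT : T ≤ T') {σ : Type} {y : σ → ℂ} (h : NoRelation K io ξ k' T' y) : NoRelation K io ξ k T y := by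
  intro R hR hd hc
  refine h R hR (fun a => (hd a).trans hk) fun m => ?_
  obtain ⟨c, hc1, hc2⟩ := hc m
  have h0 : (0 : ℝ) ≤ T' ^ k' := by
    have : (0 : ℝ) ≤ T' := by linarith
    positivity
  refine ⟨fun i => if hi : (i : ℕ) < k then c ⟨i, hi⟩ else 0, fun i φ => ?_, ?_⟩
  · by_cases hi : (i : ℕ) < k
    · simp only [dif_pos hi]
      calc ‖φ (c ⟨i, hi⟩ : K)‖ ≤ T ^ k := hc1 _ φ
        _ ≤ T' ^ k := pow_le_pow_left₀ (by linarith) hTT k
        _ ≤ T' ^ k' := pow_le_pow_right₀ (by linarith) hk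
    · simp only [dif_neg hi]
      simpa using h0
  · rw [hc2]
    have h1 : ∀ (n : ℕ) (g : ℕ → ℂ), (∑ i : Fin n, g i) = ∑ i ∈ Finset.range n, g i := fun n g => Fin.sum_univ_eq_sum_range g n
    have h2 := h1 k fun i => ξ i * (if hi : i < k then io (c ⟨i, hi⟩ : K) else 0)
    have h3 := h1 k' fun i => ξ i * (if hi : i < k then io (c ⟨i, hi⟩ : K) else 0)
    have h4 : (∑ i : Fin k, ξ i * io (c i : K)) = ∑ i : Fin k, ξ i * (if hi : (i : ℕ) < k then io (c ⟨i, hi⟩ : K) else 0) := by
      refine Finset.sum_congr rfl fun i _ => ?_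
      rw [dif_pos i.2]
    have h5 : (∑ i : Fin k', ξ i * io ((if hi : (i : ℕ) < k then c ⟨i, hi⟩ else 0 : 𝓞 K) : K)) =
        ∑ i : Fin k', ξ i * (if hi : (i : ℕ) < k then io (c ⟨i, hi⟩ : K) else 0) := by
      refine Finset.sum_congr rfl fun i _ => ?_
      by_cases hi : (i : ℕ) < k
      · rw [dif_pos hi, dif_pos hi]
      · rw [dif_neg hi, dif_neg hi]
        simp
    rw [h4, h5, h2, h3]
    refine Finset.sum_subset (Finset.range_subset_range.2 hk) fun i _ hi => ?_
    rw [Finset.mem_range] at hi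
    rw [dif_neg hi, mul_zero]

theorem ball_anti {z : ℂ} {k k' : ℕ} (hk0 : 0 < k) (hk : k ≤ k') : Metric.ball z (k' : ℝ)⁻¹ ⊆ Metric.ball z (k : ℝ)⁻¹ := by
  apply Metric.ball_subset_ball
  apply inv_anti₀
  · exact_mod_cast hk0
  · exact_mod_cast hk

/-- the numbers of the exceptional points -/
theorem count {q s n : ℕ} {U : Set ℂ} {Ω : Fin q → PeriodPair} {ty : Fin n → Fin q} {t : Fin s → ℂ → ℂ}
    {p : Fin n → ℂ → ℂ} (h : Family U Ω ty t p) :
    ∃ e : Fin (s + n) ⊕ Fin n → Name s n, Function.Injective e ∧ (∀ k i, e (Sum.inl k) ≠ Name.zeta i) ∧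
      ∃ ω : ℝ → ℕ, Tendsto ω atTop atTop ∧ Monotone ω ∧
        ∀ ε : ℝ, 0 < ε → ∃ C : ℝ, ∀ X : ℝ, 1 ≤ X → ∀ (K : Type) [Field K] [NumberField K] (io : K →+* ℂ) (ξ : ℕ → ℂ),
          {x : K | ¬ Good U Ω ty t p e K io ξ (ω (height K x + 1)) (height K x + 1) x ∧ height K x ≤ X}.Finite ∧
          ({x : K | ¬ Good U Ω ty t p e K io ξ (ω (height K x + 1)) (height K x + 1) x ∧ height K x ≤ X}.ncard : ℝ) ≤
            C * X ^ ε := by
  obtain ⟨e, he, hez, ω, T₀, hω, hmono, hmain⟩ := SplitFamilies.result Unit q s n {z | z () ∈ U} Ω ty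
    (fun l z => t l (z ())) (fun i z => p i (z ())) h.lift
  refine ⟨e, he, hez, fun T => if T < T₀ then 0 else ω T, ?_, ?_, ?_⟩
  · refine hω.congr' ?_
    filter_upwards [eventually_ge_atTop T₀] with T hT
    rw [if_neg (not_lt.2 hT)]
  · intro a b hab
    show (if a < T₀ then 0 else ω a) ≤ (if b < T₀ then 0 else ω b)
    by_cases ha : a < T₀
    · rw [if_pos ha]
      exact Nat.zero_le _
    · rw [if_neg ha, if_neg (not_lt.2 ((not_lt.1 ha).trans hab))]
      exact hmono hab
  · intro ε hε
    obtain ⟨T₁, hT₁⟩ := (tendsto_atTop.1 hω (⌈ε⁻¹⌉₊)).exists_forall_of_atTop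
    refine ⟨2 ^ ε + |T₁|, fun X hX K _ _ io ξ => ?_⟩
    have hX0 : (0 : ℝ) < X := by linarith
    have hXe : (1 : ℝ) ≤ X ^ ε := Real.one_le_rpow hX hε.le
    have hC0 : (0 : ℝ) ≤ (2 ^ ε + |T₁|) * X ^ ε := by positivity
    -- facts on a bad point
    have hbad : ∀ x : K, ¬ Good U Ω ty t p e K io ξ (if height K x + 1 < T₀ then 0 else ω (height K x + 1)) (height K x + 1) x →
        T₀ ≤ height K x + 1 ∧ Module.finrank ℚ K ≤ ω (height K x + 1) ∧ ‖io x‖ ≤ ω (height K x + 1) ∧
        Metric.ball (io x) (ω (height K x + 1) : ℝ)⁻¹ ⊆ U ∧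
        ¬ NoRelation K io ξ (ω (height K x + 1)) (height K x + 1) fun a => value Ω ty t p (io x) (e a) := by
      intro x hx
      by_cases hT : height K x + 1 < T₀
      · exfalso
        apply hx
        rw [if_pos hT]
        intro _ _ _ R hR hd hcc
        exfalso
        apply hR
        ext m
        obtain ⟨c', -, hc'⟩ := hcc m
        rw [hc', MvPolynomial.coeff_zero]
        exact Finset.sum_of_isEmpty _
      · rw [if_neg hT] at hx
        unfold Good at hx
        push Not at hx
        obtain ⟨h1, h2, h3, h4⟩ := hx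
        exact ⟨not_lt.1 hT, h1, h2, h3, h4⟩
    by_cases hemp : {x : K | ¬ Good U Ω ty t p e K io ξ (if height K x + 1 < T₀ then 0 else ω (height K x + 1))
        (height K x + 1) x ∧ height K x ≤ X} = ∅
    · rw [hemp]
      refine ⟨Set.finite_empty, ?_⟩
      rw [Set.ncard_empty]
      exact_mod_cast hC0
    · obtain ⟨x₀, hx₀, hx₀X⟩ := Set.nonempty_iff_ne_empty.2 hemp
      obtain ⟨b1, b2, -, -, -⟩ := hbad x₀ hx₀
      have hT : T₀ ≤ X + 1 := by linarith
      obtain ⟨hpos, hK⟩ := hmain (X + 1) hT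
      have hle : ∀ x : K, height K x ≤ X → ω (height K x + 1) ≤ ω (X + 1) := fun x hx => hmono (by linarith)
      obtain ⟨-, hfin, hcard⟩ := hK K (b2.trans (hle x₀ hx₀X)) io (fun i => ξ i)
      -- the map
      have hmap : ∀ x ∈ {x : K | ¬ Good U Ω ty t p e K io ξ (if height K x + 1 < T₀ then 0 else ω (height K x + 1))
        (height K x + 1) x ∧ height K x ≤ X}, (fun _ : Unit => x) ∈
          SplitFamilies.Exceptional {z : Unit → ℂ | z () ∈ U} (fun z k => SplitFamilies.value Ω ty (fun l z => t l (z ()))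
            (fun i z => p i (z ())) z (e k)) K io (ω (X + 1)) (fun i => ξ i) (X + 1) := by
        rintro x ⟨hx, hxX⟩
        obtain ⟨e1, e2, e3, e4, e5⟩ := hbad x hx
        have hω0 : 0 < ω (height K x + 1) := (hmain _ e1).1
        have hn := height_nonneg K x
        refine ⟨fun _ => height_lt (by linarith), ⟨?_, ?_⟩, ?_⟩
        · show ‖fun _ : Unit => io x‖ ≤ _
          rw [pi_norm_const]
          exact e3.trans (by exact_mod_cast hle x hxX)
        · intro z hz
          show z () ∈ U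
          have h5 : dist (z ()) (io x) ≤ dist z (fun _ : Unit => io x) :=
            dist_le_pi_dist z (fun _ : Unit => io x) ()
          exact e4 (ball_anti hω0 (hle x hxX) (lt_of_le_of_lt h5 hz))
        · have e6 : ¬ NoRelation K io ξ (ω (X + 1)) (X + 1) fun a => value Ω ty t p (io x) (e a) :=
            fun hno => e5 (hno.anti (hle x hxX) (by linarith) (by linarith))
          unfold NoRelation at e6
          push Not at e6
          obtain ⟨R, hR0, hRd, hRc, hRe⟩ := e6
          refine ⟨R, hR0, hRd, ?_, ?_⟩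
          · intro m
            obtain ⟨c', hc1, hc2⟩ := hRc m
            refine ⟨c', fun i φ => ?_, hc2⟩
            rw [Real.rpow_natCast]
            exact hc1 i φ
          · refine (congrArg (fun y => MvPolynomial.eval y R) (funext fun a => ?_)).trans hRe
            show SplitFamilies.value Ω ty (fun l z => t l (z ())) (fun i z => p i (z ())) (fun _ : Unit => io x) (e a) =
              value Ω ty t p (io x) (e a)
            cases e a <;> rfl
      have hinj : Set.InjOn (fun (x : K) (_ : Unit) => x) {x : K | ¬ Good U Ω ty t p e K io ξ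
          (if height K x + 1 < T₀ then 0 else ω (height K x + 1)) (height K x + 1) x ∧ height K x ≤ X} := by
        intro x _ y _ hxy
        exact congrFun hxy ()
      refine ⟨Set.Finite.of_finite_image (hfin.subset (Set.image_subset_iff.2 hmap)) hinj, ?_⟩
      have h7 := Set.ncard_le_ncard_of_injOn (fun (x : K) (_ : Unit) => x) hmap hinj hfin
      have h8 : (X + 1) ^ ((ω (X + 1) : ℝ)⁻¹) ≤ (2 ^ ε + |T₁|) * X ^ ε := by
        have hw0 : (0 : ℝ) < ω (X + 1) := by exact_mod_cast hpos
        rcases le_or_gt T₁ (X + 1) with h9 | h9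
        · have h10 := hT₁ (X + 1) h9
          have h11 : ε⁻¹ ≤ ω (X + 1) := (Nat.le_ceil _).trans (by exact_mod_cast h10)
          have h12 : (ω (X + 1) : ℝ)⁻¹ ≤ ε := inv_le_of_inv_le₀ hε h11
          calc (X + 1) ^ ((ω (X + 1) : ℝ)⁻¹) ≤ (X + 1) ^ ε := Real.rpow_le_rpow_of_exponent_le (by linarith) h12
            _ ≤ (2 * X) ^ ε := Real.rpow_le_rpow (by linarith) (by linarith) hε.le
            _ = 2 ^ ε * X ^ ε := Real.mul_rpow (by norm_num) hX0.le
            _ ≤ _ := mul_le_mul_of_nonneg_right (by linarith [abs_nonneg T₁]) (by linarith)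
        · have h12 : (ω (X + 1) : ℝ)⁻¹ ≤ 1 := inv_le_one_of_one_le₀ (by exact_mod_cast hpos)
          calc (X + 1) ^ ((ω (X + 1) : ℝ)⁻¹) ≤ (X + 1) ^ (1 : ℝ) := Real.rpow_le_rpow_of_exponent_le (by linarith) h12
            _ ≤ |T₁| * 1 := by
              rw [Real.rpow_one, mul_one]
              exact h9.le.trans (le_abs_self _)
            _ ≤ |T₁| * X ^ ε := mul_le_mul_of_nonneg_left hXe (abs_nonneg _)
            _ ≤ _ := mul_le_mul_of_nonneg_right (by
              have : (0 : ℝ) < 2 ^ ε := by positivity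
              linarith) (by linarith)
      have h9 : Fintype.card Unit - 1 = 0 := by simp
      rw [h9, pow_zero, mul_one] at hcard
      have h10 : (({x : K | ¬ Good U Ω ty t p e K io ξ (if height K x + 1 < T₀ then 0 else ω (height K x + 1))
        (height K x + 1) x ∧ height K x ≤ X}.ncard : ℕ) : ℝ) ≤ _ := Nat.cast_le.2 h7
      exact h10.trans (hcard.trans h8)

/-- **The relative conjecture near the values of additive functions.** Let `t`, `p` be a family of points of
`𝔾ₘ^s × ∏ E_(ty i)` with one parameter. One can choose `s + n` different functions among the `t_l`, `exp(t_l)`, `p_i`, `℘(p_i)`,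
and `n` others among these and the `ζ(p_i)`, and a nondecreasing `ω → ∞` such that for all compositions `F = f_1 ∘ ⋯ ∘ f_k`, `f_i`
dominated by the largest prime factor, all expanding `G` and all `0 ≤ κ < 1` there are `c' > 0` and `K'` with the following
property. For all number fields `K`, all embeddings, all complex `ξ_0, ξ_1, …`: for all `m ≤ N` but
`K' N exp (- c' (log N)^(1 / (k + 1)))`, ALL `x` in `K` whose height is within `F(m)^κ` of `G (F m)` are good for
`T = height x + 1` and `ω T`. The additive functions with `f (q^j) ≤ C q^j` which are injective at the large primes, the largest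
prime factor and Kempner's function are examples of such functions `f_i`, and `α v^d` with `α > 0`, `d ≥ 1` is an example of
`G`. -/
theorem result :
    (∀ (q s n : ℕ) (U : Set ℂ) (Ω : Fin q → PeriodPair) (ty : Fin n → Fin q) (t : Fin s → ℂ → ℂ) (p : Fin n → ℂ → ℂ),
      Family U Ω ty t p →
      ∃ e : Fin (s + n) ⊕ Fin n → Name s n, Function.Injective e ∧ (∀ k i, e (Sum.inl k) ≠ Name.zeta i) ∧
      ∃ ω : ℝ → ℕ, Tendsto ω atTop atTop ∧ Monotone ω ∧
      ∀ fs : List (ℕ → ℕ), (∀ f ∈ fs, PD f) → ∀ (G : ℕ → ℝ) (d : ℝ), Expanding G d → ∀ κ : ℝ, 0 ≤ κ → κ < 1 →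
      ∃ c' K' : ℝ, 0 < c' ∧ ∀ (K : Type) [Field K] [NumberField K] (io : K →+* ℂ) (ξ : ℕ → ℂ) (N : ℕ), 1 ≤ N →
      ({m : ℕ | 1 ≤ m ∧ m ≤ N ∧ ¬ ∀ x : K, |height K x - G (comp fs m)| ≤ (comp fs m : ℝ) ^ κ →
        Good U Ω ty t p e K io ξ (ω (height K x + 1)) (height K x + 1) x}.ncard : ℝ) ≤
        K' * N * Real.exp (-(c' * Real.log N ^ ((1 : ℝ) / (fs.length + 1))))) ∧
    (∀ f : ℕ → ℕ, (∀ a b : ℕ, Nat.Coprime a b → f (a * b) = f a + f b) →
      (∃ C : ℕ, ∀ q j : ℕ, q.Prime → 1 ≤ j → f (q ^ j) ≤ C * q ^ j) →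
      (∃ P : ℕ, ∀ p q : ℕ, p.Prime → q.Prime → P ≤ p → P ≤ q → f p = f q → p = q) → PD f) ∧
    (PD (fun n => n.primeFactors.sup id) ∧ PD (fun n => sInf {k : ℕ | n ∣ k.factorial})) ∧
    ∀ α d : ℝ, 0 < α → 1 ≤ d → Expanding (fun v => α * (v : ℝ) ^ d) d := by
  refine ⟨fun q s n U Ω ty t p h => ?_, fun f h2 h3 h4 => pd_additive h2 h3 h4, ⟨pd_largest, pd_kempner⟩,
    fun α d hα hd => expanding_pow hα hd⟩
  obtain ⟨e, he, hez, ω, hω, hmono, hcount⟩ := count h
  refine ⟨e, he, hez, ω, hω, hmono, fun fs hfs G d hG κ hκ hκ1 => ?_⟩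
  have hd := hG.one_le
  obtain ⟨ε, hε⟩ : ∃ ε, ε = (1 - κ) / (2 * d) := ⟨_, rfl⟩
  have hε0 : 0 < ε := by
    rw [hε]
    apply div_pos (by linarith) (by linarith)
  have hεd : d * ε = (1 - κ) / 2 := by
    rw [hε]
    field_simp
  obtain ⟨C, hC⟩ := hcount ε hε0
  obtain ⟨c', K', hc', hK'⟩ := windows_unif (T := ℝ) (fun t => t) fs hfs hG (s := ε) (κ := κ) hε0.le hκ
    (by rw [hεd]; linarith) C
  refine ⟨c', K', hc', fun K _ _ io ξ N hN => ?_⟩
  refine le_trans ?_ (hK' (height K '' {x : K | ¬ Good U Ω ty t p e K io ξ (ω (height K x + 1)) (height K x + 1) x})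
    (fun X hX => ?_) N hN)
  · have hfin : {m : ℕ | 1 ≤ m ∧ m ≤ N ∧ ∃ y ∈ height K '' {x : K | ¬ Good U Ω ty t p e K io ξ (ω (height K x + 1))
        (height K x + 1) x}, |y - G (comp fs m)| ≤ (comp fs m : ℝ) ^ κ}.Finite := by
      apply (Set.finite_Icc 1 N).subset
      intro m hm
      exact ⟨hm.1, hm.2.1⟩
    have h2 : {m : ℕ | 1 ≤ m ∧ m ≤ N ∧ ¬ ∀ x : K, |height K x - G (comp fs m)| ≤ (comp fs m : ℝ) ^ κ →
        Good U Ω ty t p e K io ξ (ω (height K x + 1)) (height K x + 1) x} ⊆
        {m : ℕ | 1 ≤ m ∧ m ≤ N ∧ ∃ y ∈ height K '' {x : K | ¬ Good U Ω ty t p e K io ξ (ω (height K x + 1))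
        (height K x + 1) x}, |y - G (comp fs m)| ≤ (comp fs m : ℝ) ^ κ} := by
      rintro m ⟨h2, h3, h4⟩
      push Not at h4
      obtain ⟨x, hx, h5⟩ := h4
      exact ⟨h2, h3, _, ⟨x, h5, rfl⟩, hx⟩
    exact_mod_cast Set.ncard_le_ncard h2 hfin
  · obtain ⟨h2, h3⟩ := hC X hX K io ξ
    have h4 : {y : ℝ | y ∈ height K '' {x : K | ¬ Good U Ω ty t p e K io ξ (ω (height K x + 1)) (height K x + 1) x} ∧ y ≤ X} ⊆
        height K '' {x : K | ¬ Good U Ω ty t p e K io ξ (ω (height K x + 1)) (height K x + 1) x ∧ height K x ≤ X} := by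
      rintro y ⟨⟨x, hx, rfl⟩, hy⟩
      exact ⟨x, ⟨hx, hy⟩, rfl⟩
    refine ⟨(h2.image _).subset h4, le_trans ?_ h3⟩
    have h5 := (Set.ncard_le_ncard h4 (h2.image _)).trans (Set.ncard_image_le h2)
    exact_mod_cast h5

end Pool.Agent.Results.MP_4b482e_nt.AdditiveValues
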