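import Mathlib
import Pool.Agent.X255.RH.Main
import Pool.Agent.N121.OQ.Ana

/-!
# The relative semi-abelian Schanuel conjecture for nonsplit extensions, at all roots of almost all integral polynomials

Let `f_1, …, f_N` be pairwise coprime polynomials without multiple roots, let `C` be the curve `y_j² = f_j(x)`, `j ≤ N`
(for `N = 1` a hyperelliptic curve, in general any `(ℤ/2)^N`-cover of the line), and let `c_1, …, c_r` be points of the
line which are not roots of the `f_j`. The jacobian `A` of `C` is isogenous to the product of the jacobians of the curves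
`C_T : y² = f_T(x) = ∏ j ∈ T, f_j(x)`, for all nonempty `T ⊆ {1, …, N}`. The points `Q_(T,k)` of `A`, the classes
`(c_k, y) - (c_k, -y)` on `C_T`, and the classes of the differences of the points at infinity define a semi-abelian
variety `G`, an extension of `A` by a torus which is not split (not even up to isogeny) if these classes are of infinite
order. (`G × 𝔾_m^r` is isogenous to the generalized jacobian of `C` with respect to the points over `c_1, …, c_r` and
infinity.) A point `x` of the line defines the point `R_x` of `G × 𝔾_m^r`, the class of the points of `C` above `x`, and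
the components of its generalized logarithm are, up to constants, the integrals

* `∫ x^i dx / y_T`, `i < deg f_T - 1`, `y_T² = f_T` (differentials of the first and of the second kind on `C_T`, and one
  of the third kind if `deg f_T` is even),
* `∫ dx / ((x - c_k) y_T)` (differentials of the third kind on `C_T`; for `T = ∅` these are the `log (x - c_k)`).

The relative semi-abelian conjecture predicts for points `x` in general position that these numbers are algebraically
independent over the field generated by the periods of `G`. We consider all the roots of an integral polynomial of degree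
`m`: all algebraic numbers of degree `m` and their conjugates are of this kind. For almost all polynomials with
coefficients at most `B` the numbers for ALL the roots in a region `V` satisfy together no algebraic relation over number
fields whose degree and whose field degree is at most `ω(B)` and whose height is at most `B ^ ω(B)`, where `ω(B) → ∞`; the
coefficients of the relations may contain arbitrary given complex numbers `ξ_0, ξ_1, …`, for instance all monomials in the
periods of `G`.

`Pool.Agent.N121.OQ.Ana` contains the theorem of Ostrowski type for these functions: they are algebraically independent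
over `ℂ(x)` (and over `ℂ(x, y_1, …, y_N)`). The values at the roots are treated with `Pool.Agent.X255.RH.main_all`.
-/

set_option autoImplicit false

open Polynomial Filter Topology NumberField

namespace Pool.Agent.Results.MP_4b482e_nt.NonsplitAtAllRoots

/-- The integral vectors `a = (a_0, …, a_m)` with `|a_i| ≤ B`. -/
noncomputable def box (m B : ℕ) : Finset (Fin (m + 1) → ℤ) := Fintype.piFinset fun _ => Finset.Icc (-(B : ℤ)) (B : ℤ)

/-- The polynomial `a_0 + a_1 x + … + a_m x^m`. -/
noncomputable def poly {m : ℕ} (a : Fin (m + 1) → ℤ) : ℂ[X] := ∑ i, C (a i : ℂ) * X ^ (i : ℕ)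

/-- The roots of the polynomial in the set `K`. -/
noncomputable def roots {m : ℕ} (K : Set ℂ) (a : Fin (m + 1) → ℤ) : Finset ℂ := by
  classical exact (poly a).roots.toFinset.filter fun z => z ∈ K

/-- The points of norm at most `k` at distance at least `1 / (k + 1)` from the complement of `V`. -/
def inner (V : Set ℂ) (k : ℕ) : Set ℂ := {z | ‖z‖ ≤ k ∧ Metric.ball z (1 / ((k : ℝ) + 1)) ⊆ V}

/-- The number of the integrals `∫ x^i dx / y_T`: the degree of `f_T` minus one (none for `T = ∅`). -/
noncomputable def num {N : ℕ} (f : Fin N → ℂ[X]) (T : Finset (Fin N)) : ℕ := (∏ j ∈ T, f j).natDegree - 1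

/-- On the connected open set `V` the functions `y_j` are branches of the square roots of the `f_j`, the functions
`I_(T,i)` are the integrals `∫ x^i dx / y_T`, `y_T = ∏ j ∈ T, y_j`, `i < deg f_T - 1`, and the functions `J_(T,k)` are the
integrals `∫ dx / ((x - c_k) y_T)`. -/
structure Integrals (V : Set ℂ) {N r : ℕ} (f : Fin N → ℂ[X]) (y : Fin N → ℂ → ℂ) (c : Fin r → ℂ)
    (I : (Σ T : Finset (Fin N), Fin (num f T)) → ℂ → ℂ) (J : Finset (Fin N) × Fin r → ℂ → ℂ) : Prop where
  isOpen : IsOpen V
  isConnected : IsConnected V
  y_analytic : ∀ j, AnalyticOnNhd ℂ (y j) V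
  y_sq : ∀ j, ∀ x ∈ V, y j x ^ 2 = (f j).eval x
  I_analytic : ∀ q, AnalyticOnNhd ℂ (I q) V
  I_deriv : ∀ T (i : Fin (num f T)), ∀ x ∈ V, deriv (I ⟨T, i⟩) x * ∏ j ∈ T, y j x = x ^ (i : ℕ)
  J_analytic : ∀ q, AnalyticOnNhd ℂ (J q) V
  J_deriv : ∀ T (k : Fin r), ∀ x ∈ V, deriv (J (T, k)) x * ((x - c k) * ∏ j ∈ T, y j x) = 1

/-- The numbers `x q` satisfy no relation of degree at most `k` in each of them with coefficients `∑_{b < k} ξ_b c_b`, where the `c_b` are
integers of a number field of degree at most `k` all of whose conjugates are at most `B ^ k`, except the relations all of whose coefficients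
vanish. -/
def NoRelation {Q : Type} [Fintype Q] [DecidableEq Q] (ξ : ℕ → ℂ) (k : ℕ) (B : ℝ) (x : Q → ℂ) : Prop :=
  ∀ (F : Type) [Field F] [NumberField F], Module.finrank ℚ F ≤ k → ∀ (io : F →+* ℂ)
    (c : (Q → Fin (k + 1)) → Fin k → 𝓞 F), (∀ l b (φ : F →+* ℂ), ‖φ (c l b : F)‖ ≤ B ^ k) →
    ∑ l, (∑ b : Fin k, ξ b * io (c l b : F)) * ∏ q, x q ^ (l q : ℕ) = 0 → ∀ l, ∑ b : Fin k, ξ b * io (c l b : F) = 0

/-- The polynomial with the coefficients `a` has degree `m` and simple roots, and there is no relation between all the integrals at all its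
roots in `inner V k` together. -/
def Good {m N r : ℕ} (V : Set ℂ) {f : Fin N → ℂ[X]} (I : (Σ T : Finset (Fin N), Fin (num f T)) → ℂ → ℂ)
    (J : Finset (Fin N) × Fin r → ℂ → ℂ) (ξ : ℕ → ℂ) (k : ℕ) (B : ℝ) (a : Fin (m + 1) → ℤ) : Prop :=
  a (Fin.last m) ≠ 0 ∧ (poly a).Separable ∧
    NoRelation ξ k B fun q : {x // x ∈ roots (inner V k) a} ×
      ((Σ T : Finset (Fin N), Fin (num f T)) ⊕ (Finset (Fin N) × Fin r)) => Sum.elim I J q.2 q.1

theorem tame (V : Set ℂ) (k : ℕ) : Pool.Agent.X255.RH.Tame (inner V k) V := by
  refine ⟨∅, 1 / ((k : ℝ) + 1), by positivity, fun R => by simp, fun z hz w hw => Or.inr (Or.inr ?_)⟩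
  by_contra h
  rw [not_le] at h
  exact hw (hz.2 (by rwa [Metric.mem_ball, dist_comm, dist_eq_norm]))

open scoped Classical in
/-- **All roots of almost all polynomials.** Let `f_1, …, f_N` be nonconstant complex polynomials, pairwise coprime and without multiple
roots, and let `c_1, …, c_r` be distinct complex numbers which are not roots of the `f_j`. For every degree `m ≥ 1` and all complex
numbers `ξ_0, ξ_1, …` there is a function `ω(B) → ∞` such that among the `(2 B + 1)^(m + 1)` integral polynomials with coefficients at most
`B` at most the proportion `1 / ω(B)` is not good: the integrals of the first, second and third kind on all the curves `y² = ∏ j ∈ T, f_j(x)`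
and the logarithms of the `x - c_k`, at all the roots together, have no relations. -/
theorem result {V : Set ℂ} {N r : ℕ} {f : Fin N → ℂ[X]} (hf : ∀ j, Squarefree (f j))
    (hcop : ∀ i j, i ≠ j → IsCoprime (f i) (f j)) (hdeg : ∀ j, 1 ≤ (f j).natDegree) {y : Fin N → ℂ → ℂ}
    {c : Fin r → ℂ} (hc : Function.Injective c) (hfc : ∀ j k, (f j).eval (c k) ≠ 0)
    {I : (Σ T : Finset (Fin N), Fin (num f T)) → ℂ → ℂ} {J : Finset (Fin N) × Fin r → ℂ → ℂ}
    (h : Integrals V f y c I J) (m : ℕ) (hm : 0 < m) (ξ : ℕ → ℂ) :
    ∃ ω : ℕ → ℕ, Tendsto ω atTop atTop ∧ Monotone ω ∧ ∀ B : ℕ,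
      ω B * ((box m B).filter fun a => ¬ Good V I J ξ (ω B) B a).card ≤ (box m B).card := by
  have han : ∀ i, AnalyticOnNhd ℂ (Sum.elim I J i) V := by
    rintro (i | j)
    · exact h.I_analytic i
    · exact h.J_analytic j
  refine Pool.Agent.X255.RH.main_all hm h.isConnected.isPreconnected h.isOpen (inner V) (tame V) han ?_ ξ
  refine Pool.Agent.N121.OQ.indepA h.isConnected.isPreconnected h.isOpen h.isConnected.nonempty f hf hcop hdeg y
    h.y_analytic h.y_sq (num f) (fun T => ?_) c hc hfc (Sum.elim I J) han (fun T i x hx => h.I_deriv T i x hx)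
    fun T k x hx => h.J_deriv T k x hx
  unfold num
  omega

end Pool.Agent.Results.MP_4b482e_nt.NonsplitAtAllRoots
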