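import Pool.Agent.N121.OT.Ext

/-!
# The relative semi-abelian Schanuel conjecture for several points and several extensions

Let `f_1, …, f_N` be pairwise coprime polynomials without multiple roots, `C` the curve `y_j² = f_j(x)`, `j ≤ N` (for
`N = 1` a hyperelliptic curve, in general any `(ℤ/2)^N`-cover of the line), and `A` its jacobian, which is isogenous to
the product of the jacobians of the curves `C_T : y² = f_T(x) = ∏ j ∈ T, f_j(x)`. Points `x_1, …, x_d` and `c_1, …, c_q` of
the line, the `c_k` fixed, define points of `A`, the classes of `(x_s, y) - (x_s, -y)` on the `C_T`, and extensions of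
`A` by `𝔾_m`. So a point `x = (x_1, …, x_d)` defines

* the extension `G` of `A` by a torus which belongs to the points `c_k` and to any of the points `x_s` (it is not split,
  not even up to isogeny, if the points of `A` are not torsion points), and
* points of `G`, given by the other points `x_t`.

The generalized logarithms of these points of `G` have, up to constants, the components

* `I_(T,i)(x_t) = ∫ x^i dx / y_T`, `i < deg f_T - 1` (first and second kind, and one of the third kind if `deg f_T` is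
  even),
* `J_(T,k)(x_t) = ∫ dx / ((x - c_k) y_T)` (third kind, poles over the fixed point `c_k`; for `T = ∅` it is
  `log (x_t - c_k)`),
* `G_T(x_s, x_t)`, the integral `∫ dx / ((x - x_s) y_T)` up to `x_t` (third kind, poles over `x_s`; for `T = ∅` it is
  `log (x_t - x_s)`),

and the periods of `G` are in the field generated by those of `A`, the `y_T(x_s)` and the `I_(T,i)(x_s)` (reciprocity of
the integrals of the third kind). We consider all the numbers `I_(T,i)(x_t)`, `J_(T,k)(x_t)`, `G_T(x_s, x_t)`, `s < t`, at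
once, for points with coordinates in a number field `K`. Outside few points they satisfy no algebraic relation over
`K` of small degree and height; the coefficients of the relations may contain arbitrary given complex numbers `ξ_a`,
for instance all monomials in the periods of `A`, or in the periods of `G` if no point `x_s` is used for `G`. For `d = 1`
(one point of the extension `G` given by the `c_k`) there are at most `T ^ (1 / ω(T))` exceptions of height at most `T`.
-/

set_option autoImplicit false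

open Polynomial Filter Topology NumberField

namespace Pool.Agent.Results.MP_4b482e_nt.PointsAndExtensions

/-- The number of the integrals `∫ x^i dx / y_T`: the degree of `f_T` minus one (none for `T = ∅`). -/
noncomputable def num {N : ℕ} (f : Fin N → ℂ[X]) (T : Finset (Fin N)) : ℕ := (∏ j ∈ T, f j).natDegree - 1

/-- On the set `V` the functions `y_j` are branches of the square roots of the `f_j`, without zeros; the functions
`I_(T,i)` are the integrals `∫ x^i dx / y_T`, `y_T = ∏ j ∈ T, y_j`, `i < deg f_T - 1`; the functions `J_(T,k)` are the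
integrals `∫ dx / ((x - c_k) y_T)`; on the set `W` of pairs `(x, z)` the functions `G_T` are the integrals
`∫ dt / ((t - x) y_T(t))` up to `z`, as functions of `x` and `z`. -/
structure Integrals (V : Set ℂ) (W : Set (ℂ × ℂ)) {N q : ℕ} (f : Fin N → ℂ[X]) (y : Fin N → ℂ → ℂ) (c : Fin q → ℂ)
    (I : (Σ T : Finset (Fin N), Fin (num f T)) → ℂ → ℂ) (J : Finset (Fin N) × Fin q → ℂ → ℂ)
    (G : Finset (Fin N) → ℂ × ℂ → ℂ) : Prop where
  y_analytic : ∀ j, AnalyticOnNhd ℂ (y j) V
  y_sq : ∀ j, ∀ x ∈ V, y j x ^ 2 = (f j).eval x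
  y_ne : ∀ j, ∀ x ∈ V, y j x ≠ 0
  I_analytic : ∀ i, AnalyticOnNhd ℂ (I i) V
  I_deriv : ∀ T (i : Fin (num f T)), ∀ x ∈ V, deriv (I ⟨T, i⟩) x * ∏ j ∈ T, y j x = x ^ (i : ℕ)
  J_analytic : ∀ i, AnalyticOnNhd ℂ (J i) V
  J_deriv : ∀ T (k : Fin q), ∀ x ∈ V, deriv (J (T, k)) x * ((x - c k) * ∏ j ∈ T, y j x) = 1
  G_analytic : ∀ T, AnalyticOnNhd ℂ (G T) W
  G_deriv : ∀ T, ∀ p ∈ W, deriv (fun z => G T (p.1, z)) p.2 * ((p.2 - p.1) * ∏ j ∈ T, y j p.2) = 1

/-- The domain: a nonempty connected open set of points `x = (x_1, …, x_d)` with all `x_s ∈ V` and `(x_s, x_t) ∈ W`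
for `s < t`. -/
structure Domain {d : ℕ} (V : Set ℂ) (W : Set (ℂ × ℂ)) (D : Set (Fin d → ℂ)) : Prop where
  isOpen : IsOpen D
  isConnected : IsConnected D
  point : ∀ x ∈ D, ∀ s, x s ∈ V
  pair : ∀ x ∈ D, ∀ s t, s < t → (x s, x t) ∈ W

/-- The names of the numbers at the point `x_t`: of the `I_(T,i)(x_t)`, of the `J_(T,k)(x_t)`, `k < q`, and of the
`G_T(x_s, x_t)`, `s < t`. -/
abbrev Names {N : ℕ} (num : Finset (Fin N) → ℕ) (q t : ℕ) : Type :=
  (Σ T : Finset (Fin N), Fin (num T)) ⊕ (Finset (Fin N) × (Fin q ⊕ Fin t))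

/-- The numbers `I_(T,i)(x_t)`, `J_(T,k)(x_t)` and `G_T(x_s, x_t)`, `s < t`. -/
noncomputable def number {N q d : ℕ} {num : Finset (Fin N) → ℕ} (I : (Σ T : Finset (Fin N), Fin (num T)) → ℂ → ℂ)
    (J : Finset (Fin N) × Fin q → ℂ → ℂ) (G : Finset (Fin N) → ℂ × ℂ → ℂ) (x : Fin d → ℂ) :
    (Σ t : Fin d, Names num q t) → ℂ
  | ⟨t, Sum.inl i⟩ => I i (x t)
  | ⟨t, Sum.inr (T, Sum.inl k)⟩ => J (T, k) (x t)
  | ⟨t, Sum.inr (T, Sum.inr s)⟩ => G T (x (Fin.castLE t.2.le s), x t)

/-- The numbers `u a` satisfy no relation of degree at most `k` in each of them with coefficients `∑_{b < k} ξ_b c_b`,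
where the `c_b` are integers of `K` all of whose conjugates are at most `H`, except the relations all of whose
coefficients vanish. -/
def NoRelation {σ : Type} [Fintype σ] [DecidableEq σ] (k : ℕ) (K : Type) [Field K] [NumberField K] (io : K →+* ℂ)
    (ξ : Fin k → ℂ) (H : ℝ) (u : σ → ℂ) : Prop :=
  ∀ c : (σ → Fin (k + 1)) → Fin k → 𝓞 K, (∀ l b (φ : K →+* ℂ), ‖φ (c l b : K)‖ ≤ H) →
    ∑ l, (∑ b, ξ b * io (c l b : K)) * ∏ a, u a ^ (l a : ℕ) = 0 → ∀ l, ∑ b, ξ b * io (c l b : K) = 0

/-- quotients `a / b` of integers of `K` all of whose conjugates are at most `T` in absolute value -/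
def HeightLe (K : Type) [Field K] [NumberField K] (T : ℝ) (x : K) : Prop :=
  ∃ a b : 𝓞 K, b ≠ 0 ∧ house (a : K) ≤ T ∧ house (b : K) ≤ T ∧ x = a / b

/-- The exceptional points: the points of `D` over `K`, of height at most `T`, of norm at most `k` and at distance at least
`1 / k` from the complement of `D`, for which the numbers satisfy a relation over `K` of degree at most `k` in each
number, with coefficients `∑ ξ_b c_b`, the `c_b` of size at most `T ^ k`. -/
def Exceptional {N q d : ℕ} {num : Finset (Fin N) → ℕ} (D : Set (Fin d → ℂ))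
    (I : (Σ T : Finset (Fin N), Fin (num T)) → ℂ → ℂ) (J : Finset (Fin N) × Fin q → ℂ → ℂ)
    (G : Finset (Fin N) → ℂ × ℂ → ℂ) (k : ℕ) (K : Type) [Field K] [NumberField K] (io : K →+* ℂ) (ξ : Fin k → ℂ)
    (T : ℝ) : Set (Fin d → K) :=
  {e | (∀ j, HeightLe K T (e j)) ∧
    (‖fun j => io (e j)‖ ≤ k ∧ Metric.ball (fun j => io (e j)) (k : ℝ)⁻¹ ⊆ D) ∧
    ¬ NoRelation k K io ξ (T ^ k) (number I J G fun j => io (e j))}

/-- `E` is contained in the union of at most `m` hypersurfaces of degree at most `D` -/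
def Covered {X : Type} (D m : ℕ) (E : Set (X → ℂ)) : Prop :=
  ∃ Φ : Finset (MvPolynomial X ℂ), Φ.card ≤ m ∧ (∀ P ∈ Φ, P ≠ 0 ∧ P.totalDegree ≤ D) ∧
    ∀ x ∈ E, ∃ P ∈ Φ, MvPolynomial.eval x P = 0

theorem number_eq {N q d : ℕ} {num : Finset (Fin N) → ℕ} (I : (Σ T : Finset (Fin N), Fin (num T)) → ℂ → ℂ)
    (J : Finset (Fin N) × Fin q → ℂ → ℂ) (G : Finset (Fin N) → ℂ × ℂ → ℂ) (x : Fin d → ℂ) :
    number I J G x = fun a => Pool.Agent.N121.OT.fn I J G a x := by
  funext a
  obtain ⟨t, i | ⟨T, k | s⟩⟩ := a <;> rfl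

/-- Let `f_1, …, f_N` be nonconstant complex polynomials, pairwise coprime and without multiple roots, let `c_1, …, c_q` be
distinct complex numbers which are not roots of the `f_j`, and `d ≥ 1`. There is `ω → ∞` such that for all large `T`, all
number fields `K` of degree at most `ω(T)`, embedded in `ℂ`, and all complex `ξ_a`, `a < ω(T)`: the points of the domain
with coordinates in `K`, of height at most `T`, norm at most `ω(T)` and distance at least `1 / ω(T)` from the complement
of the domain, for which the numbers `I_(T,i)(x_t)`, `J_(T,k)(x_t)`, `G_T(x_s, x_t)`, `s < t`, satisfy together a relation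
of degree at most `ω(T)` in each number with coefficients `∑ ξ_a c_a`, the `c_a` integers of `K` with conjugates at most
`T ^ ω(T)`, lie on at most `T ^ (1 / ω(T))` hypersurfaces of degree at most `T ^ (1 / ω(T))`; there are at most
`T ^ (1 / ω(T)) M ^ (d - 1)` of them, `M` the number of the elements of `K` of height at most `T`. -/
theorem result {V : Set ℂ} {W : Set (ℂ × ℂ)} {N q d : ℕ} {f : Fin N → ℂ[X]} (hf : ∀ j, Squarefree (f j))
    (hcop : ∀ i j, i ≠ j → IsCoprime (f i) (f j)) (hdeg : ∀ j, 1 ≤ (f j).natDegree) {y : Fin N → ℂ → ℂ}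
    {c : Fin q → ℂ} (hc : Function.Injective c) (hfc : ∀ j k, (f j).eval (c k) ≠ 0)
    {I : (Σ T : Finset (Fin N), Fin (num f T)) → ℂ → ℂ} {J : Finset (Fin N) × Fin q → ℂ → ℂ}
    {G : Finset (Fin N) → ℂ × ℂ → ℂ} (h : Integrals V W f y c I J G) (hd : 0 < d) {D : Set (Fin d → ℂ)}
    (hD : Domain V W D) :
    ∃ (ω : ℝ → ℕ) (T₀ : ℝ), Tendsto ω atTop atTop ∧ Monotone ω ∧ ∀ T, T₀ ≤ T → 0 < ω T ∧
      ∀ (K : Type) [Field K] [NumberField K], Module.finrank ℚ K ≤ ω T → ∀ (io : K →+* ℂ) (ξ : Fin (ω T) → ℂ),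
        Covered ⌊T ^ ((ω T : ℝ)⁻¹)⌋₊ ⌊T ^ ((ω T : ℝ)⁻¹)⌋₊
          ((fun (e : Fin d → K) j => io (e j)) '' Exceptional D I J G (ω T) K io ξ T) ∧
        (Exceptional D I J G (ω T) K io ξ T).Finite ∧
        ((Exceptional D I J G (ω T) K io ξ T).ncard : ℝ) ≤
          T ^ ((ω T : ℝ)⁻¹) * ({x : K | HeightLe K T x}.ncard : ℝ) ^ (d - 1) := by
  have : Nonempty (Fin d) := ⟨⟨0, hd⟩⟩
  have hnum : ∀ T, num f T + 1 ≤ (∏ j ∈ T, f j).natDegree ∨ num f T = 0 := by
    intro T
    unfold num
    omega
  obtain ⟨ω, T₀, h1, h2, h3⟩ := Pool.Agent.N121.OT.mainI (X := Fin d) (U := D)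
    (f := Pool.Agent.N121.OT.fn I J G) hD.isConnected.isPreconnected hD.isOpen hD.isConnected.nonempty
    (Pool.Agent.N121.OT.fn_an h.I_analytic h.J_analytic h.G_analytic hD.point hD.pair)
    (fun p hp x Y => Pool.Agent.N121.OT.indepD f hf hcop hdeg y h.y_analytic h.y_sq h.y_ne hnum c hc hfc I
      h.I_analytic (fun T i x hx => h.I_deriv T i x hx) J h.J_analytic (fun T k x hx => h.J_deriv T k x hx) G
      h.G_analytic (fun T p hp => h.G_deriv T p hp) hD.isOpen hD.isConnected.nonempty hD.point hD.pair p hp x Y)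
  refine ⟨ω, T₀, h1, h2, fun T hT => ⟨(h3 T hT).1, ?_⟩⟩
  intro K _ _ hK io ξ
  have h4 := (h3 T hT).2 K hK io ξ
  rw [Fintype.card_fin] at h4
  have h5 : Exceptional D I J G (ω T) K io ξ T =
      Pool.Agent.N121.OT.Exc D (Pool.Agent.N121.OT.fn I J G) (ω T) K io ξ T := by
    unfold Exceptional
    simp only [number_eq]
    rfl
  rw [h5]
  exact h4

end Pool.Agent.Results.MP_4b482e_nt.PointsAndExtensions
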