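import Pool.Agent.N603.DB.Rx
import Pool.Agent.R349.Semi

/-!
# Points on analytic curves in `E_1 × … × E_n × G_m^s` and denominators of good approximations

Let `G` be a product of elliptic curves `ℂ / Λ_(ty i)` (any lattices, no homomorphisms between different `Λ_c`) and a
torus `G_m^s`, and let `z ↦ (u_i(z), t_k(z))` be any analytic curve in the Lie algebra of `G` such that no nontrivial
combination of the `u_i` belonging to the same lattice with coefficients in the ring of endomorphisms, and no nontrivial
integral combination of the `t_k`, is constant. For each `z` the numbers `u_i`, `ζ(u_i)`, `t_k` are the components of a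
generalized logarithm of the point `R = exp_G(u, t)`, with the coordinates `℘(u_i)`, `℘'(u_i)`, `exp(t_k)`. The
inequality of the problem says that in general the transcendence degree of the field generated by all these numbers
over the field of the periods is at least `2 n + s`.

Let `α_1, …, α_m` be real numbers. We consider the natural numbers `q` with `‖q α_j - β_j‖ ≤ C q^(-τ)` for all `j`,
`‖x‖` the distance to the nearest integer; for `β = 0`, `C = 1`, `τ = 1 / m` these include the denominators of all
best simultaneous approximations (the denominators of the convergents for `m = 1`). They form a very sparse sequence,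
with gaps growing exponentially for almost all `α` if `τ = 1 / m`. Let `G` be a function with steps bounded below by a
positive constant and growth at most `v^e`, for example `a v^e`, and `c_0, c_1, …` arbitrary complex numbers, for
instance all monomials in the elements of the period set `Ω_G` of the problem. We show: one can choose `2 n + s` of the
`3 n + 2 s` functions `u_i`, `ζ(u_i)`, `℘(u_i)`, `t_k`, `exp(t_k)` - the components `u_i`, `ζ(u_i)`, `t_k` of the
logarithm, if the points `R` are algebraic functions of `z` - such that for all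
`α` in `ℝ^m` outside a set of Hausdorff dimension at most `(m + κ) / (1 + τ)`, for all number fields `F` in `ℂ`, all
degrees, all powers `A` and all compact sets in the domain: for all but finitely many of these `q`, at EVERY element
`x` of `F` in the compact set with a height within `q^κ` of `G q` the `2 n + s` numbers are good: they
satisfy no polynomial relation of degree at most `d`, not even an approximate one, whose coefficients are combinations
of the numbers `c_0, …, c_(g-1)` with coefficients in `F` of height at most `T ^ A`, `T` the height of `x`, and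
together with `π` no such relation over `F`. For `τ = 1 / m` and `κ < 1` the bound is less than `m`, so that the
statement holds for almost all `α`.

Proof. The functions are algebraically independent by Ax's theorem for `G` and its vector extensions
(`Pool.Agent.Y776.Cv.fix_sub`, `Pool.Agent.R349.Semi`); the elements of height at most `T` in a compact set which are
bad at their own height are `O(T^ε)` in number for every `ε > 0` (determinants of Bombieri-Pila type); the `q` for
which a bad element has a height near `G q` form a set with `O(X^(κ + ε))` elements up to `X`, and the `α` with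
infinitely many approximations with denominators in such a set are covered by few small cubes (`Pool.Agent.N671.DA`).
There are only countably many number fields in `ℂ`.
-/

set_option autoImplicit false

open NumberField
open scoped PeriodPair

namespace Pool.Agent.Results.MP_4b482e_nt.SimultaneousApproximations

open Pool.Agent.N671.DA (Solves Expanding expanding_pow)

/-- The Weierstrass zeta function `ζ(z) = ∑ (1/(z-l) + 1/l + z/l²)`, the sum over the lattice (the summand of
`l = 0` is `1/z`, since `1/0 = 0` in Lean). -/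
noncomputable def ζ (L : PeriodPair) (z : ℂ) : ℂ :=
  ∑' l : L.lattice, (1 / (z - l) + 1 / l + z / l ^ 2)

/-- The function `f` on `U` is algebraic over `ℂ(z)`. -/
def Algebraic (U : Set ℂ) (f : ℂ → ℂ) : Prop :=
  ∃ P : MvPolynomial (Fin 2) ℂ, P ≠ 0 ∧ ∀ z ∈ U, MvPolynomial.eval ![z, f z] P = 0

/-- An analytic curve `(u, t)` in the Lie algebra of a product of `n` elliptic curves `ℂ / Λ_(ty i)` and a torus. -/
structure Curve (U : Set ℂ) {q n s : ℕ} (Λ : Fin q → PeriodPair) (ty : Fin n → Fin q) (u : Fin n → ℂ → ℂ)
    (t : Fin s → ℂ → ℂ) : Prop where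
  isOpen : IsOpen U
  isPreconnected : IsPreconnected U
  nonempty : U.Nonempty
  pos : 0 < s + n
  /-- no homomorphisms between different curves `ℂ / Λ_c` -/
  no_hom : ∀ c c', c ≠ c' → ∀ a : ℂ, (∀ w ∈ (Λ c).lattice, a * w ∈ (Λ c').lattice) → a = 0
  analytic_u : ∀ i, AnalyticOnNhd ℂ (u i) U
  notMem : ∀ i, ∀ z ∈ U, u i z ∉ (Λ (ty i)).lattice
  /-- no nontrivial combination of the `u_i` with the same lattice with coefficients in the ring of endomorphisms is
  constant -/
  independent_u : ∀ (c : Fin q) (a : Fin n → ℂ) (b : ℂ), (∀ i, ∀ w ∈ (Λ c).lattice, a i * w ∈ (Λ c).lattice) →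
    (∀ i, ty i ≠ c → a i = 0) → (∀ z ∈ U, ∑ i, a i * u i z = b) → a = 0
  analytic_t : ∀ k, AnalyticOnNhd ℂ (t k) U
  /-- no nontrivial combination with integral coefficients of the `t_k` is constant -/
  independent_t : ∀ (m : Fin s → ℤ) (b : ℂ), (∀ z ∈ U, ∑ k, (m k : ℂ) * t k z = b) → m = 0

/-- The names of the functions `u_i`, `ζ(u_i)`, `t_k` (components of the logarithm), `℘(u_i)`, `exp(t_k)`. -/
inductive Name (n s : ℕ) : Type
  | u : Fin n → Name n s
  | zeta : Fin n → Name n s
  | t : Fin s → Name n s
  | wp : Fin n → Name n s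
  | expt : Fin s → Name n s

/-- the components of the logarithm -/
def Name.IsLog {n s : ℕ} : Name n s → Prop
  | Name.u _ => True
  | Name.zeta _ => True
  | Name.t _ => True
  | Name.wp _ => False
  | Name.expt _ => False

/-- The values of the functions at the point `z`. -/
noncomputable def value {q n s : ℕ} (Λ : Fin q → PeriodPair) (ty : Fin n → Fin q) (u : Fin n → ℂ → ℂ)
    (t : Fin s → ℂ → ℂ) (z : ℂ) : Name n s → ℂ
  | Name.u i => u i z
  | Name.zeta i => ζ (Λ (ty i)) (u i z)
  | Name.t k => t k z
  | Name.wp i => ℘[Λ (ty i)] (u i z)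
  | Name.expt k => Complex.exp (t k z)

/-- The polynomials of degree at most `d` in each variable, all of whose coefficients are of the form `∑ ξ_i ι(c_i)`, where
the `c_i` are integers of the number field `F` all of whose conjugates have absolute value at most `H`. -/
def Admissible {σ : Type} {g : ℕ} (F : Type) [Field F] [NumberField F] (ι : F →+* ℂ) (ξ : Fin g → ℂ) (d : ℕ) (H : ℝ)
    (P : MvPolynomial σ ℂ) : Prop :=
  (∀ y, P.degreeOf y ≤ d) ∧
    ∀ s, ∃ c : Fin g → 𝓞 F, (∀ i (φ : F →+* ℂ), ‖φ (c i)‖ ≤ H) ∧ P.coeff s = ∑ i, ξ i * ι (c i)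

/-- The complex numbers `v` are good: every admissible polynomial takes at them a value which is at least `δ` times each of
its coefficients, and `π` and these numbers satisfy no relation `Q = 0` with a nonzero polynomial `Q` of degree at most `d`
in each variable whose coefficients are integers of `F` with conjugates of absolute value at most `H`. -/
def Good {σ : Type} {g : ℕ} (F : Type) [Field F] [NumberField F] (ι : F →+* ℂ) (ξ : Fin g → ℂ) (d : ℕ)
    (H δ : ℝ) (v : σ → ℂ) : Prop :=
  (∀ P : MvPolynomial σ ℂ, Admissible F ι ξ d H P → ∀ s, δ * ‖P.coeff s‖ ≤ ‖MvPolynomial.aeval v P‖) ∧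
  ∀ Q : MvPolynomial (Option σ) (𝓞 F), Q ≠ 0 → (∀ x, Q.degreeOf x ≤ d) →
    (∀ s (φ : F →+* ℂ), ‖φ ((Q.coeff s : 𝓞 F) : F)‖ ≤ H) →
    MvPolynomial.eval₂ (ι.comp (algebraMap (𝓞 F) F)) (fun o => o.elim (Real.pi : ℂ) v) Q ≠ 0

/-- The element `x` of `F` is a quotient of integers all of whose conjugates have absolute value at most `T`. -/
def HeightLe (F : Type) [Field F] [NumberField F] (T : ℝ) (x : F) : Prop :=
  ∃ a b : 𝓞 F, b ≠ 0 ∧ (∀ φ : F →+* ℂ, ‖φ a‖ ≤ T ∧ ‖φ b‖ ≤ T) ∧ x = a / b

/-- The height of `x`: the least `T` such that `x` is a quotient of two integers of `F` all of whose conjugates have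
absolute value at most `T`. -/
noncomputable def height (F : Type) [Field F] [NumberField F] (x : F) : ℝ := sInf {T : ℝ | HeightLe F T x}

section

variable {U : Set ℂ} {q n s : ℕ} {Λ : Fin q → PeriodPair} {ty : Fin n → Fin q} {u : Fin n → ℂ → ℂ}
  {t : Fin s → ℂ → ℂ}

theorem fxm (h : Curve U Λ ty u t) : Y776.Cv.FxM U Λ ty u t where
  isOpen := h.isOpen
  conn := h.isPreconnected
  ni := h.no_hom
  ua := h.analytic_u
  un := h.notMem
  ui := h.independent_u
  la := h.analytic_t
  li := h.independent_t

/-- the names of the library -/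
def nm : Y776.Cv.Nf n s → Name n s :=
  Sum.elim Name.t (Sum.elim Name.expt (Sum.elim Name.u (Sum.elim Name.zeta Name.wp)))

theorem nm_inj : Function.Injective (nm (n := n) (s := s)) := by
  rintro (a | a | a | a | a) (b | b | b | b | b) h <;> simp [nm] at h <;> subst h <;> rfl

theorem nm_val (i : Y776.Cv.Nf n s) (z : ℂ) : value Λ ty u t z (nm i) = Y776.Cv.yf Λ ty u t i z := by
  rcases i with a | a | a | a | a <;> rfl

theorem nm_surj (a : Name n s) : ∃ i : Y776.Cv.Nf n s, nm i = a := by
  cases a with
  | u i => exact ⟨Sum.inr (Sum.inr (Sum.inl i)), rfl⟩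
  | zeta i => exact ⟨Sum.inr (Sum.inr (Sum.inr (Sum.inl i))), rfl⟩
  | t k => exact ⟨Sum.inl k, rfl⟩
  | wp i => exact ⟨Sum.inr (Sum.inr (Sum.inr (Sum.inr i))), rfl⟩
  | expt k => exact ⟨Sum.inr (Sum.inl k), rfl⟩

theorem val_an (h : Curve U Λ ty u t) (a : Name n s) : AnalyticOnNhd ℂ (fun z => value Λ ty u t z a) U := by
  obtain ⟨i, rfl⟩ := nm_surj a
  have h1 : (fun z => value Λ ty u t z (nm i)) = Y776.Cv.yf Λ ty u t i := funext fun z => nm_val i z
  rw [h1]
  exact Y776.Cv.yf_an (fxm h) i

/-- the choice of the functions -/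
theorem choice (h : Curve U Λ ty u t) : ∃ e : Fin (2 * n + s) → Name n s, Function.Injective e ∧
    ((∀ i, Algebraic U fun z => ℘[Λ (ty i)] (u i z)) → (∀ k, Algebraic U fun z => Complex.exp (t k z)) →
      ∀ j, (e j).IsLog) ∧
    ∀ x ∈ U, Y124.LocInd (fun k z => value Λ ty u t z (e k)) x := by
  classical
  by_cases hal : (∀ i, Algebraic U fun z => ℘[Λ (ty i)] (u i z)) ∧
      ∀ k, Algebraic U fun z => Complex.exp (t k z)
  · have hcard : Fintype.card (Fin (2 * n + s)) = Fintype.card (Fin n ⊕ (Fin n ⊕ Fin s)) := by
      simp only [Fintype.card_sum, Fintype.card_fin]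
      omega
    let w : Fin (2 * n + s) ≃ Fin n ⊕ (Fin n ⊕ Fin s) := Fintype.equivOfCardEq hcard
    let g : Fin n ⊕ (Fin n ⊕ Fin s) → Name n s := Sum.elim Name.u (Sum.elim Name.zeta Name.t)
    have hg : Function.Injective g := by
      rintro (a | a | a) (b | b | b) h <;> simp [g] at h <;> subst h <;> rfl
    have hlog : ∀ a, (g a).IsLog := by
      rintro (a | a | a) <;> trivial
    refine ⟨fun k => g (w k), hg.comp w.injective, fun _ _ j => hlog _, ?_⟩
    have h1 : ∀ x ∈ U, Y124.LocInd (fun (a : Fin n ⊕ (Fin n ⊕ Fin s)) z => value Λ ty u t z (g a)) x := by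
      refine Pool.Agent.R349.Semi.locInd_alg (fxm h) h.pos h.nonempty _ (fun a => val_an h _) ?_ ?_
      · simp only [Fintype.card_sum, Fintype.card_fin]
        omega
      · rintro (k | k | i | i | i)
        · exact Or.inl ⟨Sum.inr (Sum.inr k), fun z _ => rfl⟩
        · exact Or.inr (hal.2 k)
        · exact Or.inl ⟨Sum.inl i, fun z _ => rfl⟩
        · exact Or.inl ⟨Sum.inr (Sum.inl i), fun z _ => rfl⟩
        · exact Or.inr (hal.1 i)
    intro x hx
    exact Y776.Cv.LocInd.comp_inj (h1 x hx) w.injective
  · obtain ⟨e, he, hL⟩ := Y776.Cv.fix_sub (fxm h) h.pos h.nonempty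
    have hc : s + 2 * n = 2 * n + s := by ring
    refine ⟨fun k => nm (e (Fin.cast hc.symm k)), nm_inj.comp (he.comp (Fin.cast_injective _)),
      fun h1 h2 => absurd ⟨h1, h2⟩ hal, fun x hx => ?_⟩
    have h1 : (fun (k : Fin (2 * n + s)) z => value Λ ty u t z (nm (e (Fin.cast hc.symm k)))) =
        fun k => Y776.Cv.yf Λ ty u t (e (Fin.cast hc.symm k)) := by
      funext k z
      exact nm_val _ z
    rw [h1]
    exact Y776.Cv.LocInd.comp_inj (hL x hx) (Fin.cast_injective hc.symm)

end

/-- **Relative inequality in bounded degree and denominators of good approximations.** For every curve `(u, t)` on `U`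
as above there are `2 n + s` different names `e_j` (those of the components of the logarithm, if all `℘(u_i)` and
`exp(t_k)` are algebraic functions) such that the following is true. Let `c_0, c_1, …` be complex numbers, let `G` have
steps `≥ a > 0` and growth at most `v^b`, `0 ≤ κ ≤ 1`, `β` in `ℝ^m` and `τ > 0`. There is a set `E` in `ℝ^m` of
Hausdorff dimension at most `(m + κ) / (1 + τ)` such that for all `α` outside `E`, all number fields `F` in `ℂ`, all
`g`, `d`, `A` and all compact subsets `L` of `U` there is `B` such that for all `C` and all large `q` with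
`‖q α_j - β_j‖ ≤ C q^(-τ)` for all `j`: at EVERY `x` in `F ∩ L` with `|height x - G q| ≤ q^κ` the numbers with the
names `e_j` are good, for the degree `d`, the height `T ^ A`, the numbers `c_0, …, c_(g-1)` and the measure `T ^ (-B)`,
where `T` is the height of `x`. The infimum in the definition of the height is a minimum, and the functions `a v^b`
with `a > 0`, `b ≥ 1` are examples of `G`. -/
theorem result :
    (∀ (q' n s : ℕ) (U : Set ℂ) (Λ : Fin q' → PeriodPair) (ty : Fin n → Fin q') (u : Fin n → ℂ → ℂ)
      (t : Fin s → ℂ → ℂ), Curve U Λ ty u t →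
      ∃ e : Fin (2 * n + s) → Name n s, Function.Injective e ∧
        ((∀ i, Algebraic U fun z => ℘[Λ (ty i)] (u i z)) → (∀ k, Algebraic U fun z => Complex.exp (t k z)) →
          ∀ j, (e j).IsLog) ∧
        ∀ (c : ℕ → ℂ) (G : ℕ → ℝ) (b : ℝ), Expanding G b → ∀ κ : ℝ, 0 ≤ κ → κ ≤ 1 →
        ∀ (m : ℕ) (β : Fin m → ℝ) (τ : ℝ), 0 < τ →
        ∃ E : Set (Fin m → ℝ), dimH E ≤ ENNReal.ofReal ((m + κ) / (1 + τ)) ∧
          ∀ α, α ∉ E → ∀ (F : IntermediateField ℚ ℂ) [NumberField F] (g d : ℕ) (A : ℝ) (L : Set ℂ),
            IsCompact L → L ⊆ U → ∃ B : ℝ, ∀ C : ℝ, ∃ Q : ℕ, ∀ q : ℕ, Q ≤ q →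
              Solves α β q (C * (q : ℝ) ^ (-τ)) → ∀ x : F, (x : ℂ) ∈ L →
                |height F x - G q| ≤ (q : ℝ) ^ κ →
                  Good F (algebraMap F ℂ) (fun i : Fin g => c i) d (height F x ^ A) (height F x ^ (-B))
                    (fun j => value Λ ty u t (x : ℂ) (e j))) ∧
    (∀ (F : Type) [Field F] [NumberField F] (x : F) (T : ℝ), height F x ≤ T ↔ HeightLe F T x) ∧
    ∀ a b : ℝ, 0 < a → 1 ≤ b → Expanding (fun v => a * (v : ℝ) ^ b) b := by
  refine ⟨fun q' n s U Λ ty u t h => ?_, fun F _ _ x T => Pool.Agent.N603.DA.ht_le_iff F x T,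
    fun a b ha hb => expanding_pow ha hb⟩
  obtain ⟨e, he, hlog, hL⟩ := choice h
  refine ⟨e, he, hlog, fun c G b hG κ hκ hκ1 m β τ hτ => ?_⟩
  exact Pool.Agent.N603.DB.master_all' (fun j z => value Λ ty u t z (e j)) U h.isOpen
    (fun j x hx => val_an h (e j) x hx) hL c hG hκ hκ1 β hτ

end Pool.Agent.Results.MP_4b482e_nt.SimultaneousApproximations
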